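import Pool.Agent.Helper20.QP.St2
import Pool.Agent.Helper40.QD.M_DBJ

/-!
# Project QD, part P, module GBJ: a proper local diffeomorphism of the disc is bijective
-/

set_option autoImplicit false

open Filter Topology Matrix Set Metric
open scoped ComplexConjugate

namespace Pool.Agent.Helper21.QP

open Pool.Agent.Helper35.PM Pool.Agent.Helper20.QD Pool.Agent.Helper20.QP

/-- MODULE GBJ. -/
theorem hGBJ : StGBJ := by
  intro E hED hE1 hd hprop
  let p : D → D := fun z => ⟨E z, hED z.2⟩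
  have hEcD : ContinuousOn E D := hE1.continuousOn
  have hpc : Continuous p := (continuousOn_iff_continuous_domRestrict.1 hEcD).subtype_mk _
  have hval : IsLocalHomeomorph (Subtype.val : D → ℂ) :=
    (isOpen_ball (x := (0 : ℂ)) (ε := 1)).isOpenEmbedding_subtypeVal.isLocalHomeomorph
  have hlocon := Pool.Agent.Helper40.QD.locHom hE1 hd
  have hloc : IsLocalHomeomorph p := by
    have h1 : IsLocalHomeomorph ((Subtype.val : D → ℂ) ∘ p) := by
      rw [isLocalHomeomorph_iff_isLocalHomeomorphOn_univ]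
      have h2 : (Subtype.val : D → ℂ) ∘ p = E ∘ (Subtype.val : D → ℂ) := rfl
      rw [h2]
      exact hlocon.comp hval.isLocalHomeomorphOn (fun z _ => z.2)
    exact IsLocalHomeomorph.of_comp h1 hval hpc
  have hcpt : ∀ r' : ℝ, r' < 1 → IsCompact {z : D | ‖(z : ℂ)‖ ≤ r'} := by
    intro r' hr'
    rw [Topology.IsEmbedding.subtypeVal.isCompact_iff]
    have h2 : Subtype.val '' {z : D | ‖(z : ℂ)‖ ≤ r'} = closedBall (0 : ℂ) r' := by
      ext z
      constructor
      · rintro ⟨x, hx, rfl⟩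
        rw [mem_closedBall_zero_iff]
        exact hx
      · intro hz
        rw [mem_closedBall_zero_iff] at hz
        refine ⟨⟨z, ?_⟩, hz, rfl⟩
        rw [mem_ball_zero_iff]
        linarith
    rw [h2]
    exact isCompact_closedBall _ _
  have hpr : ∀ K : Set D, IsCompact K → IsCompact (p ⁻¹' K) := by
    intro K hK
    have hb : ∃ r : ℝ, r < 1 ∧ ∀ z ∈ K, ‖(z : ℂ)‖ ≤ r := by
      rcases K.eq_empty_or_nonempty with he | hne
      · exact ⟨0, by norm_num, fun z hz => by rw [he] at hz; exact absurd hz (notMem_empty z)⟩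
      · obtain ⟨z0, hz0, hmax⟩ := hK.exists_isMaxOn hne
          (f := fun z : D => ‖(z : ℂ)‖) (continuous_norm.comp continuous_subtype_val).continuousOn
        refine ⟨‖(z0 : ℂ)‖, ?_, fun z hz => hmax hz⟩
        exact mem_ball_zero_iff.1 z0.2
    obtain ⟨r, hr, hKr⟩ := hb
    obtain ⟨r', hr', hE⟩ := hprop r hr
    refine (hcpt r' hr').of_isClosed_subset (hK.isClosed.preimage hpc) ?_
    intro z hz
    exact hE z z.2 (hKr _ hz)
  have hproper : IsProperMap p := isProperMap_iff_isCompact_preimage.2 ⟨hpc, fun K hK => hpr K hK⟩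
  have hclosed : IsClosedMap p := hproper.isClosedMap
  have hfin : ∀ w : D, (p ⁻¹' {w}).Finite := by
    intro w
    have h1 : IsCompact (p ⁻¹' {w}) := hpr _ isCompact_singleton
    refine h1.finite (IsDiscrete.of_openPartialHomeomorph p Subset.rfl ?_)
    intro e _
    obtain ⟨φ, h3, h4⟩ := hloc e
    exact ⟨φ, h3, h4.symm⟩
  have hcov : IsCoveringMap p := by
    rw [isCoveringMap_iff_isCoveringMapOn_univ]
    refine hclosed.isCoveringMapOn_of_isLocalHomeomorphOn (fun w _ => hfin w) ?_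
    exact hloc.isLocalHomeomorphOn
  have : LocallyPathConnectedSpace D := isOpen_ball.locallyPathConnectedSpace
  have : ContractibleSpace D := (convex_ball (0 : ℂ) 1).contractibleSpace ⟨0, by simp⟩
  let z0 : D := ⟨0, by simp⟩
  obtain ⟨s, ⟨hs0, hs⟩, -⟩ := hcov.existsUnique_continuousMap_lifts (ContinuousMap.id D) (p z0) z0 rfl
  have hs' : ∀ w : D, p (s w) = w := fun w => congrFun hs w
  obtain ⟨t, -, ht⟩ := hcov.existsUnique_continuousMap_lifts (⟨p, hpc⟩ : C(D, D)) z0 z0 rfl
  have h1 : ContinuousMap.id D = t := ht (ContinuousMap.id D) ⟨rfl, rfl⟩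
  have h2 : s.comp ⟨p, hpc⟩ = t := by
    refine ht _ ⟨hs0, ?_⟩
    funext z
    exact hs' (p z)
  have h3 : ∀ z : D, s (p z) = z := by
    intro z
    have h4 : s.comp ⟨p, hpc⟩ = ContinuousMap.id D := h2.trans h1.symm
    exact congrArg (fun f : C(D, D) => f z) h4
  refine ⟨hED, ?_, ?_⟩
  · intro a ha b hb hab
    have h5 : p ⟨a, ha⟩ = p ⟨b, hb⟩ := Subtype.ext hab
    have h6 := h3 ⟨a, ha⟩
    rw [h5, h3] at h6
    exact (congrArg Subtype.val h6).symm
  · intro w hw
    exact ⟨s ⟨w, hw⟩, (s ⟨w, hw⟩).2, congrArg Subtype.val (hs' ⟨w, hw⟩)⟩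

end Pool.Agent.Helper21.QP
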